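import Pool.Agent.Helper5.SX.St

set_option autoImplicit false

/-!
# Project SX, module FUL (count of the dominated vertices)
-/

namespace Pool.Agent.Helper42.SX

open _root_.SX
open Finset
open scoped Classical

theorem hFUL : StBFB → StCZ → StFUL := by
  intro hBFB hCZ V _ A c y l hmax
  obtain ⟨h0, _⟩ := hCZ V A c y l hmax
  obtain ⟨_, _, hK, _, _, _, _, _, hrest⟩ := hBFB V A c y l hmax.st h0
  have hk : ∀ B ∈ Sb A c y l, (univ.filter (fun w => A.b w = B)).card = A.k := by
    intro B hB
    obtain ⟨m, _, hm⟩ := hK B hB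
    rw [← hm]
    exact A.blk m
  have hT : (univ.filter (fun v => A.b v ∈ Sb A c y l)).card
      = ∑ B ∈ Sb A c y l, (univ.filter (fun w => A.b w = B)).card := by
    have hmap : ∀ v ∈ univ.filter (fun v => A.b v ∈ Sb A c y l), A.b v ∈ Sb A c y l :=
      fun v hv => (Finset.mem_filter.mp hv).2
    rw [Finset.card_eq_sum_card_fiberwise hmap]
    apply Finset.sum_congr rfl
    intro B hB
    congr 1
    ext w
    simp only [Finset.mem_filter, Finset.mem_univ, true_and]
    constructor
    · exact fun h => h.2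
    · exact fun h => ⟨h ▸ hB, h⟩
  rw [Finset.sum_congr rfl hk, Finset.sum_const, smul_eq_mul] at hT
  have hsub : univ.filter (fun v => A.b v ∈ Sb A c y l) ⊆
      (Sb A c y l).biUnion (fun B => Und A c y l B) ∪ (Kset A c y l).biUnion (fun z => A.N z) := by
    intro v hv
    have hv' := (Finset.mem_filter.mp hv).2
    rw [Finset.mem_union]
    by_cases h : ∀ z ∈ A.N v, z ∉ Kset A c y l
    · left
      exact Finset.mem_biUnion.mpr ⟨A.b v, hv', Finset.mem_filter.mpr ⟨Finset.mem_univ _, rfl, h⟩⟩
    · right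
      push Not at h
      obtain ⟨z, hz, hzK⟩ := h
      exact Finset.mem_biUnion.mpr ⟨z, hzK, A.symm v z hz⟩
  have h1 := (Finset.card_le_card hsub).trans (Finset.card_union_le _ _)
  have h2 : ((Sb A c y l).biUnion (fun B => Und A c y l B)).card
      ≤ ∑ B ∈ Sb A c y l, (Und A c y l B).card := Finset.card_biUnion_le
  have h3 : ((Kset A c y l).biUnion (fun z => A.N z)).card ≤ (Kset A c y l).card * A.D := by
    refine Finset.card_biUnion_le.trans ?_
    exact Finset.sum_le_card_nsmul _ _ _ (fun z _ => A.deg z)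
  have h4 : (Kset A c y l).card ≤ 2 * (Sb A c y l).card := by
    have := hrest.1
    omega
  have h5 : (Kset A c y l).card * A.D ≤ 2 * (Sb A c y l).card * A.D := Nat.mul_le_mul_right _ h4
  calc A.k * (Sb A c y l).card = (Sb A c y l).card * A.k := Nat.mul_comm _ _
    _ ≤ ∑ B ∈ Sb A c y l, (Und A c y l B).card + 2 * (Sb A c y l).card * A.D := by
        rw [← hT]
        omega
    _ = _ := by ring

end Pool.Agent.Helper42.SX
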