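import Pool.Agent.Helper5.SX.St

set_option autoImplicit false

/-!
# Project SX, module TYB (blocks of the second type)
-/

namespace Pool.Agent.Helper42.SX

open _root_.SX
open Finset
open scoped Classical

theorem tyb_case1 (hFCD : StFCD) (hUNF : StUNF) (V : Type) [Fintype V] (A : Dat V) (c : V → ℕ)
    (y : ℕ → V) (l t0 t1 : ℕ) (C L : ℕ → Finset V) (h : Frame A c y l t0 t1 C L) (B : ℕ)
    (hB : B ∈ Gd A c y l t0 t1) (m : V) (hm : m ∈ KM A c y l) (x : V) (hx : x ∈ L B)
    (hxm : x ∈ A.N m) :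
    (Rp A c y l t0 B).card ≤ (L B \ A.N m).card + 2 * A.D + t0 := by
  have hC := h.comp B hB
  have hL := h.free B hB
  have hxC : x ∈ C B := hL.sub hx
  have hxR : x ∈ Rp A c y l t0 B := hC.sub hxC
  have hm2 := Finset.mem_filter.mp hm
  have hmK : m ∈ Kn A c y l x := Finset.mem_filter.mpr ⟨A.symm m x hxm, hm2.1⟩
  have hblk : ∀ v ∈ Rp A c y l t0 B, A.b v = B := by
    intro v hv
    have h1 := (Finset.mem_filter.mp hv).1
    exact (Finset.mem_filter.mp h1).2.1
  have hinj := h.st.mx.st.base.lab.inj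
  have hexc : exc A c y l x ≤ t0 := (Finset.mem_filter.mp hxR).2
  have hsub : (Rp A c y l t0 B \ L B).image c ⊆ Fb A c y l x ∪ (A.N m \ L B).image c := by
    intro a ha
    obtain ⟨x', hx', rfl⟩ := Finset.mem_image.mp ha
    obtain ⟨hx'R, hx'L⟩ := Finset.mem_sdiff.mp hx'
    rw [Finset.mem_union]
    by_cases hf : c x' ∈ Fb A c y l x
    · exact Or.inl hf
    right
    have hx'C : x' ∈ C B := hC.closed x hxC x' hx'R hf
    have ht : TightAt A c y l x (c x') := by
      by_contra hnt
      exact hx'L (hL.closed x hx x' hx'C ⟨hf, hnt⟩)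
    obtain ⟨_, v, hv, hcv⟩ := ht.2 m hmK
    obtain ⟨_, _, _, _, z, hz, hcz⟩ := (hUNF V A c y l h.st.mx m hm).1 v hv
    refine Finset.mem_image.mpr ⟨z, Finset.mem_sdiff.mpr ⟨hz, ?_⟩, hcz.trans hcv⟩
    intro hzL
    have hzR : z ∈ Rp A c y l t0 B := hC.sub (hL.sub hzL)
    have : z = x' := hinj z x' ((hblk z hzR).trans (hblk x' hx'R).symm) (hcz.trans hcv)
    exact hx'L (this ▸ hzL)
  have hcard1 : ((Rp A c y l t0 B \ L B).image c).card = (Rp A c y l t0 B \ L B).card := by
    apply Finset.card_image_of_injOn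
    intro v hv w hw hvw
    have hv' := (Finset.mem_sdiff.mp (Finset.mem_coe.mp hv)).1
    have hw' := (Finset.mem_sdiff.mp (Finset.mem_coe.mp hw)).1
    exact hinj v w ((hblk v hv').trans (hblk w hw').symm) hvw
  have hcard2 := (Finset.card_le_card hsub).trans (Finset.card_union_le _ _)
  have hcard3 : ((A.N m \ L B).image c).card ≤ (A.N m \ L B).card := Finset.card_image_le
  have hF := hFCD V A c y l x h.st.mx.st
  have hdeg := A.deg m
  have e1 := Finset.card_sdiff_add_card_inter (A.N m) (L B)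
  have e2 := Finset.card_sdiff_add_card_inter (L B) (A.N m)
  rw [Finset.inter_comm (L B) (A.N m)] at e2
  have e3 := Finset.card_sdiff_add_card_eq_card (hL.sub.trans hC.sub)
  rw [hcard1] at hcard2
  omega

theorem hTYB : StFCD → StUNF → StCLA → StTYB := by
  intro hFCD hUNF hCLA V _ A c y l t0 t1 C L h B hB h2 m hm
  by_cases hx : ∃ x ∈ L B, x ∈ A.N m
  · obtain ⟨x, hx, hxm⟩ := hx
    exact tyb_case1 hFCD hUNF V A c y l t0 t1 C L h B hB m hm x hx hxm
  · push Not at hx
    have hL := h.free B hB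
    obtain ⟨x, hxL⟩ := hL.ne
    obtain ⟨m', hm'⟩ := hCLA V A c y l t0 t1 C L h B hB x (hL.sub hxL)
    have hm'2 := Finset.mem_filter.mp hm'
    have hm'M : m' ∈ Mk A c := h2 x hxL m' hm'
    have hK : m' ∈ KM A c y l := Finset.mem_filter.mpr ⟨hm'2.2, hm'M⟩
    have h1 := tyb_case1 hFCD hUNF V A c y l t0 t1 C L h B hB m' hK x hxL (A.symm x m' hm'2.1)
    have h3 : (L B \ A.N m').card ≤ (L B \ A.N m).card := by
      have : L B \ A.N m = L B := by
        apply Finset.sdiff_eq_self_of_disjoint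
        rw [Finset.disjoint_left]
        intro a ha
        exact hx a ha
      rw [this]
      exact Finset.card_le_card Finset.sdiff_subset
    omega

end Pool.Agent.Helper42.SX
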